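import Pool.Agent.Helper535.HN.Gd
import Pool.Agent.Helper535.WF.P_cclosed
import Pool.Agent.Helper535.WF.P_firstc

set_option autoImplicit false

open Set Topology Filter

namespace Pool.Agent.Results.MP_5baa61_gt.PointComplements

universe u

/-- weakly first countable spaces -/
def WeaklyFirstCountable (X : Type u) [TopologicalSpace X] : Prop :=
  ∃ V : X → ℕ → Set X, (∀ x n, x ∈ V x n) ∧ (∀ x n, V x (n + 1) ⊆ V x n) ∧
    ∀ O : Set X, IsOpen O ↔ ∀ x ∈ O, ∃ n, V x n ⊆ O

/-- for every point `z` and every sequence of points `≠ z` converging to `z` there is a continuous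
real function on `X \ {z}` which is not bounded above on the sequence. -/
def UnboundedOnSequences (X : Type u) [TopologicalSpace X] : Prop :=
  ∀ (z : X) (a : ℕ → X) (ha : ∀ n, a n ∈ ({z}ᶜ : Set X)), Tendsto a atTop (𝓝 z) →
    ∃ f : ({z}ᶜ : Set X) → ℝ, Continuous f ∧ ∀ M : ℝ, ∃ n, M < f ⟨a n, ha n⟩

/-- A weakly first countable compact Hausdorff space is first countable if all its
point-complements are normal, or if it satisfies `UnboundedOnSequences`. -/
theorem result (X : Type u) [TopologicalSpace X] [CompactSpace X] [T2Space X]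
    (hw : WeaklyFirstCountable X)
    (h : (∀ z : X, NormalSpace ({z}ᶜ : Set X)) ∨ UnboundedOnSequences X) :
    FirstCountableTopology X := by
  have hC : Pool.Helper535.HN.CClosed X := fun S hS =>
    Pool.Agent.Helper535.WF.cclosed X hw S hS
  have hU : Pool.Helper535.HN.UnbSeq X := by
    rcases h with h | h
    · exact Pool.Helper535.HN.unb_of_normal h
    · exact h
  exact Pool.Agent.Helper535.WF.firstc X hw (Pool.Helper535.HN.frechetU hC hU)

end Pool.Agent.Results.MP_5baa61_gt.PointComplements
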